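import Pool.Agent.Y462.SS.Main
import Pool.Agent.Y812.SS.Wr
import Pool.Agent.Y331.SS.Lim
import Pool.Agent.Y430.SS.Lf
import Pool.Agent.X176.FJ.Crit
import Pool.Agent.X176.FJ.Bool

/-!
# Wreath products with finitely many different sections, recursions over infinite alphabets and
their limits
-/

set_option autoImplicit false

namespace Pool.Agent.X265.Ctr

open Pool.Agent.Y462.SS Pool.Agent.Y110.FJ Pool.Agent.X176.FJ Pool.Agent.Y331.SS

variable {X : Type}

theorem app_inv (p : Equiv.Perm X) (x : X) : p (p⁻¹ x) = x := p.apply_symm_apply x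

theorem inv_app (p : Equiv.Perm X) (x : X) : p⁻¹ (p x) = x := p.symm_apply_apply x

/-! ## the wreath product with finitely many different sections -/

/-- elements of `Γ ≀ Perm X` with permutation in `P` and finitely many different sections -/
def RW (P : Subgroup (Equiv.Perm X)) (Γ : Type) [Group Γ] : Subgroup (Wr X Γ) where
  carrier := {w | w.p ∈ P ∧ (Set.range w.s).Finite}
  one_mem' := ⟨one_mem _, fr_one⟩
  mul_mem' := by
    rintro a b ⟨ha, ha'⟩ ⟨hb, hb'⟩
    refine ⟨mul_mem ha hb, (ha'.image2 (fun x y => x * y) hb').subset ?_⟩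
    rintro _ ⟨x, rfl⟩
    exact ⟨a.s (b.p x), ⟨_, rfl⟩, b.s x, ⟨_, rfl⟩, rfl⟩
  inv_mem' := by
    rintro a ⟨ha, ha'⟩
    refine ⟨inv_mem ha, (ha'.image fun x => x⁻¹).subset ?_⟩
    rintro _ ⟨x, rfl⟩
    exact ⟨a.s (a.p⁻¹ x), ⟨_, rfl⟩, rfl⟩

theorem mem_RW {P : Subgroup (Equiv.Perm X)} {Γ : Type} [Group Γ] {w : Wr X Γ} :
    w ∈ RW P Γ ↔ w.p ∈ P ∧ (Set.range w.s).Finite := Iff.rfl

/-- a map on the sections preserves the group -/
theorem finite_range_of {Γ Δ : Type} {s : X → Γ} (hs : (Set.range s).Finite) (t : X → Δ)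
    (φ : Γ → Δ) (h : ∀ x, t x = φ (s x)) : (Set.range t).Finite := by
  refine (hs.image φ).subset ?_
  rintro _ ⟨x, rfl⟩
  exact ⟨s x, ⟨x, rfl⟩, (h x).symm⟩

theorem c_RW {C : ∀ (G : Type) [Group G], Prop} (hC : ClosedE C) {P : Subgroup (Equiv.Perm X)}
    (hP : C P) {Γ : Type} [Group Γ] (h : C Γ) : C (RW P Γ) := by
  have h1 : C (FR X Γ ⋊[frAct X (1 : P →* MulAut Γ)] P) := c_fr hC h hP
  let f : RW P Γ →* (FR X Γ ⋊[frAct X (1 : P →* MulAut Γ)] P) :=
    { toFun := fun w => ⟨⟨fun x => w.1.s (w.1.p⁻¹ x), w.2.2.subset (by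
          rintro _ ⟨x, rfl⟩
          exact ⟨_, rfl⟩)⟩, ⟨w.1.p, w.2.1⟩⟩
      map_one' := rfl
      map_mul' := by
        intro a b
        apply SemidirectProduct.ext
        · apply FR.ext
          funext x
          change (a.1 * b.1).s ((a.1 * b.1).p⁻¹ x) =
            a.1.s (a.1.p⁻¹ x) * b.1.s (b.1.p⁻¹ (a.1.p⁻¹ x))
          rw [Wr.mul_s, Wr.mul_p, mul_inv_rev, Equiv.Perm.mul_apply, app_inv]
        · rfl }
  refine hC.base.of_injective _ _ f ?_ h1
  intro a b hab
  have hp : a.1.p = b.1.p := congrArg Subtype.val (congrArg SemidirectProduct.right hab)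
  have hs : (fun x => a.1.s (a.1.p⁻¹ x)) = fun x => b.1.s (b.1.p⁻¹ x) :=
    congrArg FR.f (congrArg SemidirectProduct.left hab)
  apply Subtype.ext
  apply Wr.ext
  · funext x
    have h2 := congrFun hs (a.1.p x)
    simp only [inv_app] at h2
    rw [h2, hp, inv_app]
  · exact hp

/-! ## limits of recursions -/

variable {Γ : Type} [Group Γ]

theorem c_Kn {C : ∀ (G : Type) [Group G], Prop} (hC : ClosedE C) {P : Subgroup (Equiv.Perm X)}
    (hP : C P) (ψ : Γ →* Wr X Γ) (hψ : ∀ γ, ψ γ ∈ RW P Γ) (hΓ : C Γ) (n : ℕ) :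
    C (Γ ⧸ Kn ψ n) := by
  induction n with
  | zero =>
    refine hC.base.of_injective (Γ ⧸ Kn ψ 0) Γ
      (QuotientGroup.lift (Kn ψ 0) (MonoidHom.id Γ) ?_) ?_ hΓ
    · intro x hx
      rw [Kn_zero, Subgroup.mem_bot] at hx
      exact hx
    · rw [injective_iff_map_eq_one]
      intro a ha
      obtain ⟨y, rfl⟩ := QuotientGroup.mk_surjective a
      have h1 : y = 1 := ha
      rw [h1]
      rfl
  | succ n ih =>
    have h1 : C (RW P (Γ ⧸ Kn ψ n)) := c_RW hC hP ih
    have h2 : ∀ γ, phi ψ (Kn ψ n) γ ∈ RW P (Γ ⧸ Kn ψ n) := fun γ =>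
      ⟨(hψ γ).1, finite_range_of (hψ γ).2 _ (fun y : Γ => (y : Γ ⧸ Kn ψ n)) fun x => rfl⟩
    let f : Γ →* RW P (Γ ⧸ Kn ψ n) := (phi ψ (Kn ψ n)).codRestrict _ h2
    have hf : f.ker = Kn ψ (n + 1) := by
      rw [Kn_succ]
      exact MonoidHom.ker_codRestrict _ _ h2
    have h3 : ∀ (K L : Subgroup Γ) [K.Normal] [L.Normal], K = L → C (Γ ⧸ K) → C (Γ ⧸ L) := by
      rintro K L _ _ rfl h
      exact h
    exact h3 f.ker _ hf (hC.base.of_injective _ _
      (QuotientGroup.kerLift f) (QuotientGroup.kerLift_injective _) h1)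

/-- limits of recursions over infinite alphabets -/
theorem c_lim {C : ∀ (G : Type) [Group G], Prop} (hC : ClosedE C) {P : Subgroup (Equiv.Perm X)}
    (hP : C P) (ψ : Γ →* Wr X Γ) (hψ : ∀ γ, ψ γ ∈ RW P Γ) (hΓ : C Γ) (K : Subgroup Γ) [K.Normal]
    (hK : ∀ γ, γ ∈ K ↔ ∃ n, γ ∈ Kn ψ n) : C (Γ ⧸ K) := by
  have hle : ∀ n, Kn ψ n ≤ K := fun n γ h => (hK γ).2 ⟨n, h⟩
  refine hC.base.colim ℕ (fun i j => ⟨max i j, le_max_left i j, le_max_right i j⟩)
    (fun n => Γ ⧸ Kn ψ n)
    (fun i j h => QuotientGroup.map (Kn ψ i) (Kn ψ j) (MonoidHom.id Γ) (Kn_mono ψ h))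
    (Γ ⧸ K) (fun i => QuotientGroup.map (Kn ψ i) K (MonoidHom.id Γ) (hle i)) ?_ ?_ ?_ ?_ ?_ ?_
  · intro i h x
    obtain ⟨y, rfl⟩ := QuotientGroup.mk_surjective x
    rfl
  · intro i j k h h' x
    obtain ⟨y, rfl⟩ := QuotientGroup.mk_surjective x
    rfl
  · intro i j h x
    obtain ⟨y, rfl⟩ := QuotientGroup.mk_surjective x
    rfl
  · intro y
    obtain ⟨z, rfl⟩ := QuotientGroup.mk_surjective y
    exact ⟨0, QuotientGroup.mk z, rfl⟩
  · intro i x hx
    obtain ⟨y, rfl⟩ := QuotientGroup.mk_surjective x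
    have h1 : ((y : Γ) : Γ ⧸ K) = 1 := hx
    have h2 : y ∈ K := (QuotientGroup.eq_one_iff _).1 h1
    obtain ⟨n, hn⟩ := (hK y).1 h2
    refine ⟨max i n, le_max_left i n, ?_⟩
    have h3 : y ∈ Kn ψ (max i n) := Kn_mono ψ (le_max_right i n) hn
    exact (QuotientGroup.eq_one_iff _).2 h3
  · intro n
    exact c_Kn hC hP ψ hψ hΓ n

/-! ## iterated sections -/

/-- the section of `γ` at a word -/
def secG (ψ : Γ →* Wr X Γ) (γ : Γ) : List X → Γ
  | [] => γ
  | x :: v => secG ψ ((ψ γ).s x) v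

@[simp] theorem secG_nil (ψ : Γ →* Wr X Γ) (γ : Γ) : secG ψ γ [] = γ := rfl

theorem secG_cons (ψ : Γ →* Wr X Γ) (γ : Γ) (x : X) (v : List X) :
    secG ψ γ (x :: v) = secG ψ ((ψ γ).s x) v := rfl

theorem secG_append (ψ : Γ →* Wr X Γ) (γ : Γ) (v w : List X) :
    secG ψ γ (v ++ w) = secG ψ (secG ψ γ v) w := by
  induction v generalizing γ with
  | nil => rfl
  | cons x v ih => rw [List.cons_append, secG_cons, secG_cons, ih]

theorem secG_one (ψ : Γ →* Wr X Γ) (v : List X) : secG ψ 1 v = 1 := by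
  induction v with
  | nil => rfl
  | cons x v ih => rw [secG_cons, map_one, Wr.one_s, ih]

theorem secG_mul (ψ : Γ →* Wr X Γ) (γ δ : Γ) (v : List X) :
    secG ψ (γ * δ) v = secG ψ γ (act ψ δ v) * secG ψ δ v := by
  induction v generalizing γ δ with
  | nil => rw [act_nil]; rfl
  | cons x v ih => rw [secG_cons, act_cons, secG_cons, secG_cons, map_mul, Wr.mul_s, ih]

/-- sections of tree automorphisms at words -/
abbrev secW (g : T X) (v : List X) : T X := secG (toWr X) g v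

theorem tau_secG (ψ : Γ →* Wr X Γ) (γ : Γ) (v : List X) :
    tau ψ (secG ψ γ v) = secW (tau ψ γ) v := by
  induction v generalizing γ with
  | nil => rfl
  | cons x v ih =>
    rw [secG_cons, ih]
    change _ = secG (toWr X) ((toWr X (tau ψ γ)).s x) v
    rw [toWr_s, sec_tau]

theorem mem_Kn_of_sections (ψ : Γ →* Wr X Γ) (n : ℕ) (γ : Γ) (h : tau ψ γ = 1)
    (hs : ∀ v : List X, v.length = n → secG ψ γ v = 1) : γ ∈ Kn ψ n := by
  induction n generalizing γ with
  | zero =>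
    rw [Kn_zero, Subgroup.mem_bot]
    exact hs [] rfl
  | succ n ih =>
    rw [mem_Kn_succ]
    refine ⟨?_, fun x => ?_⟩
    · rw [← root_tau, h, root_one]
    · apply ih
      · rw [← sec_tau, h, sec_one]
      · intro v hv
        exact hs (x :: v) (by simp [hv])

theorem tau_of_mem_Kn (ψ : Γ →* Wr X Γ) (n : ℕ) (γ : Γ) (h : γ ∈ Kn ψ n) : tau ψ γ = 1 := by
  induction n generalizing γ with
  | zero =>
    rw [Kn_zero, Subgroup.mem_bot] at h
    rw [h, map_one]
  | succ n ih =>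
    rw [mem_Kn_succ] at h
    apply T_ext
    · rw [root_tau, h.1, root_one]
    · intro x
      rw [sec_tau, ih _ (h.2 x), sec_one]

/-- all sections of some level are in `N` -/
def EN (ψ : Γ →* Wr X Γ) (N : Set Γ) (γ : Γ) : Prop :=
  ∃ n, ∀ v : List X, v.length = n → secG ψ γ v ∈ N

theorem secG_mem (ψ : Γ →* Wr X Γ) {N : Set Γ} (hN : ∀ a ∈ N, ∀ x, (ψ a).s x ∈ N) {a : Γ}
    (ha : a ∈ N) (v : List X) : secG ψ a v ∈ N := by
  induction v generalizing a with
  | nil => exact ha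
  | cons x v ih => exact ih (hN a ha x)

theorem EN_mono (ψ : Γ →* Wr X Γ) {N : Set Γ} (hN : ∀ a ∈ N, ∀ x, (ψ a).s x ∈ N) {γ : Γ} {n : ℕ}
    (h : ∀ v : List X, v.length = n → secG ψ γ v ∈ N) {m : ℕ} (hm : n ≤ m) (v : List X)
    (hv : v.length = m) : secG ψ γ v ∈ N := by
  have h1 : v = v.take n ++ v.drop n := (List.take_append_drop n v).symm
  rw [h1, secG_append]
  exact secG_mem ψ hN (h _ (by rw [List.length_take]; omega)) _

theorem EN_of_mem (ψ : Γ →* Wr X Γ) {N : Set Γ} {a : Γ} (ha : a ∈ N) : EN ψ N a :=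
  ⟨0, fun v hv => by rw [List.length_eq_zero_iff.1 hv]; exact ha⟩

theorem EN_of_sections {P : Subgroup (Equiv.Perm X)} (ψ : Γ →* Wr X Γ)
    (hψ : ∀ γ, ψ γ ∈ RW P Γ) {N : Set Γ} (hN : ∀ a ∈ N, ∀ x, (ψ a).s x ∈ N) (γ : Γ)
    (h : ∀ x, EN ψ N ((ψ γ).s x)) : EN ψ N γ := by
  have h' : ∀ y : Set.range (ψ γ).s, ∃ n, ∀ v : List X, v.length = n → secG ψ y v ∈ N := by
    rintro ⟨_, x, rfl⟩
    exact h x
  choose n hn using h'
  have hfin : Finite (Set.range (ψ γ).s) := (hψ γ).2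
  obtain ⟨m, hm⟩ := (Set.finite_range n).bddAbove
  refine ⟨m + 1, fun v hv => ?_⟩
  cases v with
  | nil => simp at hv
  | cons x v =>
    rw [secG_cons]
    exact EN_mono ψ hN (hn ⟨_, x, rfl⟩) (hm ⟨⟨_, x, rfl⟩, rfl⟩) v (by simpa using hv)

theorem EN_of_level {P : Subgroup (Equiv.Perm X)} (ψ : Γ →* Wr X Γ)
    (hψ : ∀ γ, ψ γ ∈ RW P Γ) {N : Set Γ} (hN : ∀ a ∈ N, ∀ x, (ψ a).s x ∈ N) (n : ℕ)
    (γ : Γ) (h : ∀ v : List X, v.length = n → EN ψ N (secG ψ γ v)) : EN ψ N γ := by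
  induction n generalizing γ with
  | zero => exact h [] rfl
  | succ n ih =>
    apply EN_of_sections ψ hψ hN
    intro x
    exact ih _ fun v hv => h (x :: v) (by simp [hv])

/-- **contracting covers**: the image of a group in `C` with a contracting recursion -/
theorem c_range {C : ∀ (G : Type) [Group G], Prop} (hC : ClosedE C) {P : Subgroup (Equiv.Perm X)}
    (hP : C P) (ψ : Γ →* Wr X Γ) (hψ : ∀ γ, ψ γ ∈ RW P Γ) (hΓ : C Γ) (N : Set Γ)
    (habs : ∀ γ, ∃ n, ∀ v : List X, v.length = n → secG ψ γ v ∈ N)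
    (hdet : ∀ a ∈ N, tau ψ a = 1 → a = 1) : C (tau ψ).range := by
  have h1 : C (Γ ⧸ (tau ψ).ker) := by
    refine c_lim hC hP ψ hψ hΓ _ fun γ => ⟨fun h => ?_, fun ⟨n, h⟩ => tau_of_mem_Kn ψ n γ h⟩
    rw [MonoidHom.mem_ker] at h
    obtain ⟨n, hn⟩ := habs γ
    refine ⟨n, mem_Kn_of_sections ψ n γ h fun v hv => hdet _ (hn v hv) ?_⟩
    rw [tau_secG, h]
    exact secG_one _ v
  exact Pool.Agent.Y812.SS.C_equiv hC.base (QuotientGroup.quotientKerEquivRange (tau ψ)).symm h1

/-! ## tree automorphisms with local permutations in `P` and locally finitely many sections -/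

/-- all vertex permutations are in `P` and all vertices have finitely many different sections one
level below -/
def FP (P : Subgroup (Equiv.Perm X)) : Subgroup (T X) where
  carrier := {g | ∀ v, toWr X (secW g v) ∈ RW P (T X)}
  one_mem' := by
    intro v
    rw [secW, secG_one, map_one]
    exact one_mem _
  mul_mem' := by
    intro g h hg hh v
    rw [secW, secG_mul, map_mul]
    exact mul_mem (hg _) (hh _)
  inv_mem' := by
    intro g hg v
    have h1 : secW g⁻¹ v = (secW g (act (toWr X) g⁻¹ v))⁻¹ := by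
      rw [eq_inv_iff_mul_eq_one]
      have h2 := secG_mul (toWr X) g g⁻¹ v
      rw [mul_inv_cancel, secG_one] at h2
      rw [mul_eq_one_iff_eq_inv, eq_comm, inv_eq_iff_mul_eq_one]
      exact h2.symm
    rw [h1, map_inv]
    exact inv_mem (hg _)

theorem FP_sec {P : Subgroup (Equiv.Perm X)} {g : T X} (hg : g ∈ FP P) (x : X) :
    sec g x ∈ FP P := fun v => hg (x :: v)

theorem mem_FP_iff {P : Subgroup (Equiv.Perm X)} {g : T X} :
    g ∈ FP P ↔ toWr X g ∈ RW P (T X) ∧ ∀ x, sec g x ∈ FP P := by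
  constructor
  · intro h
    exact ⟨h [], fun x => FP_sec h x⟩
  · rintro ⟨h1, h2⟩ v
    cases v with
    | nil => exact h1
    | cons x v => exact h2 x v

theorem Lv_le_succ {H : Subgroup (T X)} (hH : ∀ g ∈ H, ∀ x, sec g x ∈ H) (n : ℕ) :
    Lv H n ≤ Lv H (n + 1) := by
  induction n with
  | zero => exact fun g hg x => hH g hg x
  | succ n ih => exact fun g hg x => ih (hg x)

theorem mem_Lv_of_sections {H : Subgroup (T X)} (n : ℕ) (g : T X)
    (h : ∀ v : List X, v.length = n → secW g v ∈ H) : g ∈ Lv H n := by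
  induction n generalizing g with
  | zero => exact h [] rfl
  | succ n ih =>
    rw [mem_Lv_succ]
    intro x
    exact ih _ fun v hv => h (x :: v) (by simp [hv])

theorem Lv_closed' {C : ∀ (G : Type) [Group G], Prop} (hC : ClosedE C)
    {P : Subgroup (Equiv.Perm X)} (hP : C P) (H : Subgroup (T X)) (hH : C H) (n : ℕ) :
    C (Lv H n ⊓ FP P : Subgroup (T X)) := by
  induction n with
  | zero =>
    exact hC.base.of_injective _ _ (Subgroup.inclusion (inf_le_left : H ⊓ FP P ≤ H))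
      (Subgroup.inclusion_injective _) hH
  | succ n ih =>
    have h1 : C (RW P (Lv H n ⊓ FP P : Subgroup (T X))) := c_RW hC hP ih
    let f : (Lv H (n + 1) ⊓ FP P : Subgroup (T X)) →* RW P (Lv H n ⊓ FP P : Subgroup (T X)) :=
      { toFun := fun g => ⟨⟨fun x => ⟨sec g.1 x, g.2.1 x, FP_sec g.2.2 x⟩, root g.1⟩, by
          have h2 := (mem_FP_iff.1 g.2.2).1
          refine ⟨h2.1, Set.Finite.of_finite_image (f := Subtype.val) (h2.2.subset ?_)
            Subtype.val_injective.injOn⟩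
          rintro _ ⟨_, ⟨x, rfl⟩, rfl⟩
          exact ⟨x, rfl⟩⟩
        map_one' := by
          apply Subtype.ext
          apply Wr.ext
          · funext x
            exact Subtype.ext (sec_one x)
          · exact root_one
        map_mul' := by
          intro g h
          apply Subtype.ext
          apply Wr.ext
          · funext x
            exact Subtype.ext (sec_mul g.1 h.1 x)
          · exact root_mul g.1 h.1 }
    refine hC.base.of_injective _ _ f ?_ h1
    intro g h hgh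
    apply Subtype.ext
    have h2 := congrArg Subtype.val hgh
    refine T_ext (congrArg Wr.p h2) fun x => ?_
    exact congrArg Subtype.val (congrFun (congrArg Wr.s h2) x)

/-- groups whose elements have their sections of large level in a group in `C` -/
theorem c_of_level {C : ∀ (G : Type) [Group G], Prop} (hC : ClosedE C)
    {P : Subgroup (Equiv.Perm X)} (hP : C P) (H : Subgroup (T X)) (hH : C H)
    (hHs : ∀ g ∈ H, ∀ x, sec g x ∈ H) (G : Type) [Group G] (f : G →* T X)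
    (hf : Function.Injective f) (hfP : ∀ g, f g ∈ FP P)
    (hs : ∀ g, ∃ n, ∀ v : List X, v.length = n → secW (f g) v ∈ H) : C G := by
  let K : ℕ → Subgroup G := fun n => (Lv H n ⊓ FP P).comap f
  have hK : Monotone K := by
    apply monotone_nat_of_le_succ
    intro n g hg
    exact ⟨Lv_le_succ hHs n hg.1, hg.2⟩
  have hall : ∀ g, ∃ n, g ∈ K n := by
    intro g
    obtain ⟨n, hn⟩ := hs g
    exact ⟨n, mem_Lv_of_sections n _ hn, hfP g⟩
  refine Pool.Agent.Y430.SS.t_union C hC.base G K hK hall ?_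
  intro n
  let φ : K n →* (Lv H n ⊓ FP P : Subgroup (T X)) :=
    { toFun := fun g => ⟨f g.1, g.2⟩
      map_one' := Subtype.ext (map_one f)
      map_mul' := fun a b => Subtype.ext (map_mul f a.1 b.1) }
  refine hC.base.of_injective _ _ φ ?_ (Lv_closed' hC hP H hH n)
  intro a b hab
  exact Subtype.ext (hf (congrArg Subtype.val hab))

end Pool.Agent.X265.Ctr
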