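import Pool.Agent.X265.Ctr.Base

/-!
# The nucleus criterion
-/

set_option autoImplicit false

namespace Pool.Agent.X265.Ctr

open Pool.Agent.Y462.SS Pool.Agent.Y110.FJ Pool.Agent.X176.FJ Pool.Agent.Y331.SS

/-! ## definitions of the statement -/

/-- `h` is the section of `g` at the word `v` -/
def IsSec {X : Type} (g : Equiv.Perm (List X)) (v : List X) (h : Equiv.Perm (List X)) : Prop :=
  ∀ w, g (v ++ w) = g v ++ h w

/-- all vertex permutations of `g` are in `P`, and for every word `v` the sections of `g` at the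
words `v x`, `x ∈ X`, form a finite set -/
def LocIn {X : Type} (P : Subgroup (Equiv.Perm X)) (g : Equiv.Perm (List X)) : Prop :=
  ∀ v : List X, (∃ p ∈ P, ∀ x, g (v ++ [x]) = g v ++ [p x]) ∧
    {h : Equiv.Perm (List X) | ∃ x, IsSec g (v ++ [x]) h}.Finite

/-- `N` is a set of elements of the group `G` of automorphisms of the tree `X^*` which contains `1`,
inverses and sections and absorbs the sections of large level of every element of `G`. (If there is a
finite set `N` with these properties, the group is called contracting, and the smallest one is its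
nucleus.) -/
structure Absorbing {X G : Type} [Group G] (f : G →* Equiv.Perm (List X)) (N : Set G) : Prop where
  one : 1 ∈ N
  inv : ∀ a ∈ N, a⁻¹ ∈ N
  sec : ∀ a ∈ N, ∀ x : X, ∃ b ∈ N, IsSec (f a) [x] (f b)
  absorb : ∀ g : G, ∃ n : ℕ, ∀ v : List X, v.length = n → ∃ b ∈ N, IsSec (f g) v (f b)

/-- the relations of length three which hold between elements of `N` -/
def mulRel {G : Type} [Group G] (N : Set G) : Set (FreeGroup N) :=
  {r | ∃ a b c : N, (a : G) * b = c ∧ r = FreeGroup.of a * FreeGroup.of b * (FreeGroup.of c)⁻¹}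

/-- the group with the generators `N` and the relations `a b = c` for all `a, b, c` in `N` for which
this holds in `G` -/
abbrev NucGroup {G : Type} [Group G] (N : Set G) : Type := PresentedGroup (mulRel N)

/-! ## sections -/

variable {X : Type}

theorem apply_append (g : T X) (v w : List X) : g.1 (v ++ w) = g.1 v ++ (secW g v).1 w := by
  induction v generalizing g with
  | nil => rw [List.nil_append, nil_eq, List.nil_append]; rfl
  | cons x v ih =>
    rw [List.cons_append, cons_eq, cons_eq, ih]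
    rfl

theorem isSec_secW (g : T X) (v : List X) : IsSec g.1 v (secW g v).1 := apply_append g v

theorem eq_of_isSec {g h : T X} {v : List X} (hs : IsSec g.1 v h.1) : secW g v = h := by
  apply Subtype.ext
  apply Equiv.ext
  intro w
  have h1 := (apply_append g v w).symm.trans (hs w)
  exact List.append_cancel_left h1

theorem sec_eq_of_isSec {g h : T X} {x : X} (hs : IsSec g.1 [x] h.1) : sec g x = h :=
  eq_of_isSec (v := [x]) hs

theorem secW_snoc (g : T X) (v : List X) (x : X) : secW g (v ++ [x]) = sec (secW g v) x := by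
  rw [secW, secG_append]
  rfl

theorem act_toWr (g : T X) (v : List X) : act (toWr X) g v = g.1 v := by
  induction v generalizing g with
  | nil => rw [act_nil, nil_eq]
  | cons x v ih => rw [act_cons, cons_eq, ih]; rfl

theorem mem_FP_of_locIn {P : Subgroup (Equiv.Perm X)} {g : T X} (h : LocIn P g.1) :
    g ∈ FP P := by
  intro v
  obtain ⟨⟨p, hp, h1⟩, h2⟩ := h v
  have h3 : root (secW g v) = p := by
    apply Equiv.ext
    intro x
    have h4 := apply_append g v [x]
    rw [h1 x] at h4
    have h5 := List.append_cancel_left h4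
    rw [cons_eq, nil_eq] at h5
    exact (List.cons.inj h5).1.symm
  refine ⟨?_, Set.Finite.of_finite_image (f := Subtype.val) (h2.subset ?_)
    Subtype.val_injective.injOn⟩
  · rw [toWr_p, h3]
    exact hp
  · rintro _ ⟨_, ⟨x, rfl⟩, rfl⟩
    refine ⟨x, ?_⟩
    rw [toWr_s, ← secW_snoc]
    exact isSec_secW g (v ++ [x])

section nuc

variable {G : Type} [Group G] (f : G →* T X) (N : Set G)

/-- chosen sections of the elements of `N` -/
noncomputable def sct (hsec : ∀ a ∈ N, ∀ x : X, ∃ b ∈ N, sec (f a) x = f b) (a : N) (x : X) : N :=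
  ⟨(hsec a a.2 x).choose, (hsec a a.2 x).choose_spec.1⟩

theorem sct_spec (hsec : ∀ a ∈ N, ∀ x : X, ∃ b ∈ N, sec (f a) x = f b) (a : N) (x : X) :
    sec (f a) x = f (sct f N hsec a x) := (hsec a a.2 x).choose_spec.2

variable {N} in
/-- the relation of a product -/
theorem of_mul_of {a b c : N} (h : (a : G) * b = c) :
    (PresentedGroup.of a : NucGroup N) * PresentedGroup.of b = PresentedGroup.of c := by
  rw [← mul_inv_eq_one]
  exact PresentedGroup.one_of_mem (rels := mulRel N)
    (x := FreeGroup.of a * FreeGroup.of b * (FreeGroup.of c)⁻¹) ⟨a, b, c, h, rfl⟩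

variable {N} in
theorem of_one {a : N} (h : (a : G) = 1) : (PresentedGroup.of a : NucGroup N) = 1 := by
  have h1 := of_mul_of (N := N) (a := a) (b := a) (c := a) (by rw [h, one_mul])
  exact mul_eq_left.1 h1

/-- the recursion on the generators -/
noncomputable def psi0 (hsec : ∀ a ∈ N, ∀ x : X, ∃ b ∈ N, sec (f a) x = f b) (a : N) :
    Wr X (NucGroup N) :=
  ⟨fun x => PresentedGroup.of (sct f N hsec a x), root (f a)⟩

variable (hf : Function.Injective f)

include hf in
theorem psi0_mul (hsec : ∀ a ∈ N, ∀ x : X, ∃ b ∈ N, sec (f a) x = f b) {a b c : N}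
    (h : (a : G) * b = c) : psi0 f N hsec a * psi0 f N hsec b = psi0 f N hsec c := by
  apply Wr.ext
  · funext x
    apply of_mul_of
    apply hf
    rw [map_mul, ← sct_spec, ← sct_spec, ← sct_spec]
    change sec (f a) (root (f b) x) * sec (f b) x = _
    rw [← sec_mul, ← map_mul, h]
  · change root (f a) * root (f b) = root (f c)
    rw [← root_mul, ← map_mul, h]

/-- the recursion of the nucleus group -/
noncomputable def psiN (hsec : ∀ a ∈ N, ∀ x : X, ∃ b ∈ N, sec (f a) x = f b) :
    NucGroup N →* Wr X (NucGroup N) :=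
  PresentedGroup.toGroup (f := psi0 f N hsec) (by
    rintro r ⟨a, b, c, h, rfl⟩
    rw [map_mul, map_mul, map_inv, FreeGroup.lift_apply_of, FreeGroup.lift_apply_of,
      FreeGroup.lift_apply_of, psi0_mul f N hf hsec h, mul_inv_cancel])

theorem psiN_of (hsec : ∀ a ∈ N, ∀ x : X, ∃ b ∈ N, sec (f a) x = f b) (a : N) :
    psiN f N hf hsec (PresentedGroup.of a) = psi0 f N hsec a :=
  PresentedGroup.toGroup.of _

/-- the map to `G` -/
noncomputable def piN : NucGroup N →* G :=
  PresentedGroup.toGroup (f := fun a : N => (a : G)) (by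
    rintro r ⟨a, b, c, h, rfl⟩
    rw [map_mul, map_mul, map_inv, FreeGroup.lift_apply_of, FreeGroup.lift_apply_of,
      FreeGroup.lift_apply_of, h, mul_inv_cancel])

theorem piN_of (a : N) : piN N (PresentedGroup.of a) = a := PresentedGroup.toGroup.of _

theorem tau_of (hsec : ∀ a ∈ N, ∀ x : X, ∃ b ∈ N, sec (f a) x = f b) (a : N) :
    tau (psiN f N hf hsec) (PresentedGroup.of a) = f a := by
  apply Subtype.ext
  apply Equiv.ext
  intro w
  change act (psiN f N hf hsec) (PresentedGroup.of a) w = (f a).1 w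
  induction w generalizing a with
  | nil => rw [act_nil, nil_eq]
  | cons x w ih =>
    rw [act_cons, cons_eq, psiN_of, sct_spec f N hsec a x, ← ih]
    rfl

theorem tau_eq (hsec : ∀ a ∈ N, ∀ x : X, ∃ b ∈ N, sec (f a) x = f b) (γ : NucGroup N) :
    tau (psiN f N hf hsec) γ = f (piN N γ) := by
  have h1 : tau (psiN f N hf hsec) = f.comp (piN N) := by
    apply PresentedGroup.ext
    intro a
    rw [tau_of, MonoidHom.comp_apply, piN_of]
  rw [h1]
  rfl

theorem secG_of (hsec : ∀ a ∈ N, ∀ x : X, ∃ b ∈ N, sec (f a) x = f b) (a : N) (v : List X) :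
    ∃ b : N, secG (psiN f N hf hsec) (PresentedGroup.of a) v = PresentedGroup.of b ∧
      secW (f a) v = f b := by
  induction v generalizing a with
  | nil => exact ⟨a, rfl, rfl⟩
  | cons x v ih =>
    obtain ⟨b, h1, h2⟩ := ih (sct f N hsec a x)
    refine ⟨b, ?_, ?_⟩
    · rw [secG_cons, psiN_of]
      exact h1
    · rw [← h2, ← sct_spec]
      rfl

/-- the set of the generators -/
def gens : Set (NucGroup N) := Set.range PresentedGroup.of

include hf in
theorem gens_sec (hsec : ∀ a ∈ N, ∀ x : X, ∃ b ∈ N, sec (f a) x = f b) (γ : NucGroup N)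
    (h : γ ∈ gens N) (x : X) : (psiN f N hf hsec γ).s x ∈ gens N := by
  obtain ⟨a, rfl⟩ := h
  rw [psiN_of]
  exact ⟨_, rfl⟩

theorem abs_all {P : Subgroup (Equiv.Perm X)} (hone : 1 ∈ N) (hinv : ∀ a ∈ N, a⁻¹ ∈ N)
    (hsec : ∀ a ∈ N, ∀ x : X, ∃ b ∈ N, sec (f a) x = f b)
    (habs : ∀ g : G, ∃ n : ℕ, ∀ v : List X, v.length = n → ∃ b ∈ N, secW (f g) v = f b)
    (hψ : ∀ γ, psiN f N hf hsec γ ∈ RW P (NucGroup N)) (γ : NucGroup N) :
    EN (psiN f N hf hsec) (gens N) γ := by
  have h1 : (1 : NucGroup N) ∈ gens N := ⟨⟨1, hone⟩, of_one rfl⟩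
  have hN := gens_sec f N hf hsec
  have hmul : ∀ γ δ : NucGroup N, EN (psiN f N hf hsec) (gens N) γ →
      EN (psiN f N hf hsec) (gens N) δ → EN (psiN f N hf hsec) (gens N) (γ * δ) := by
    rintro γ δ ⟨n, hn⟩ ⟨k, hk⟩
    refine EN_of_level (psiN f N hf hsec) hψ hN (max n k) _ fun v hv => ?_
    rw [secG_mul]
    obtain ⟨a, ha⟩ := EN_mono _ hN hn (le_max_left n k) (act (psiN f N hf hsec) δ v)
      (by rw [act_length, hv])
    obtain ⟨b, hb⟩ := EN_mono _ hN hk (le_max_right n k) v hv
    rw [← ha, ← hb]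
    obtain ⟨m, hm⟩ := habs (a * b)
    refine ⟨m, fun u hu => ?_⟩
    rw [secG_mul]
    obtain ⟨a', ha', ha''⟩ := secG_of f N hf hsec a
      (act (psiN f N hf hsec) (PresentedGroup.of b) u)
    obtain ⟨b', hb', hb''⟩ := secG_of f N hf hsec b u
    obtain ⟨c, hc, hc'⟩ := hm u hu
    refine ⟨⟨c, hc⟩, ?_⟩
    rw [ha', hb']
    symm
    apply of_mul_of
    apply hf
    rw [← hc', map_mul, map_mul, secW, secG_mul, ← ha'', ← hb'']
    have h4 : act (psiN f N hf hsec) (PresentedGroup.of b) u = act (toWr X) (f b) u := by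
      rw [act_toWr, ← tau_of f N hf hsec b]
      rfl
    rw [h4]
  induction γ using PresentedGroup.induction_on with
  | _ z =>
    induction z using FreeGroup.induction_on with
    | C1 => rw [map_one]; exact EN_of_mem _ h1
    | of a => exact EN_of_mem _ ⟨a, rfl⟩
    | inv_of a _ =>
      apply EN_of_mem
      refine ⟨⟨(a : G)⁻¹, hinv a a.2⟩, ?_⟩
      have h1 := of_mul_of (N := N) (a := a) (b := ⟨(a : G)⁻¹, hinv a a.2⟩) (c := ⟨1, hone⟩)
        (mul_inv_cancel _)
      rw [of_one (a := ⟨1, hone⟩) rfl] at h1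
      rw [map_inv, eq_comm, inv_eq_iff_mul_eq_one]
      exact h1
    | mul x y hx hy =>
      rw [map_mul]
      exact hmul _ _ hx hy

include hf in
/-- **the nucleus criterion** -/
theorem c_nuc {C : ∀ (G : Type) [Group G], Prop} (hC : ClosedE C) {P : Subgroup (Equiv.Perm X)}
    (hP : C P) (hfP : ∀ g, f g ∈ FP P) (hone : 1 ∈ N) (hinv : ∀ a ∈ N, a⁻¹ ∈ N)
    (hsec : ∀ a ∈ N, ∀ x : X, ∃ b ∈ N, sec (f a) x = f b)
    (habs : ∀ g : G, ∃ n : ℕ, ∀ v : List X, v.length = n → ∃ b ∈ N, secW (f g) v = f b)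
    (hN : C (NucGroup N)) : C G := by
  have hψ : ∀ γ, psiN f N hf hsec γ ∈ RW P (NucGroup N) := by
    intro γ
    induction γ using PresentedGroup.induction_on with
    | _ z =>
      have hgen : ∀ a : N, psi0 f N hsec a ∈ RW P (NucGroup N) := by
        intro a
        have h1 := hfP a []
        classical
        refine ⟨h1.1, finite_range_of h1.2 _ (fun t : T X =>
          if h : ∃ b : N, f b = t then (PresentedGroup.of h.choose : NucGroup N) else 1) ?_⟩
        intro x
        have h2 : ∃ b : N, f b = sec (f a) x := ⟨_, (sct_spec f N hsec a x).symm⟩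
        change _ = dite (∃ b : N, f b = sec (f a) x) _ _
        rw [dif_pos h2]
        have h3 : h2.choose = sct f N hsec a x := by
          apply Subtype.ext
          apply hf
          rw [h2.choose_spec, sct_spec]
        exact (congrArg (fun b : N => (PresentedGroup.of b : NucGroup N)) h3).symm
      induction z using FreeGroup.induction_on with
      | C1 => rw [map_one, map_one]; exact one_mem _
      | of a => exact (psiN_of f N hf hsec a) ▸ hgen a
      | inv_of a _ =>
        rw [map_inv, map_inv]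
        exact inv_mem ((psiN_of f N hf hsec a) ▸ hgen a)
      | mul x y hx hy => rw [map_mul, map_mul]; exact mul_mem hx hy
  have h1 : C (tau (psiN f N hf hsec)).range := by
    refine c_range hC hP _ hψ hN (gens N) (abs_all f N hf hone hinv hsec habs hψ) ?_
    rintro _ ⟨a, rfl⟩ h
    rw [tau_of] at h
    apply of_one
    apply hf
    rw [h, map_one]
  refine c_of_level hC hP _ h1 ?_ G f hf hfP ?_
  · rintro _ ⟨γ, rfl⟩ x
    exact ⟨_, (sec_tau _ γ x).symm⟩
  · intro g
    obtain ⟨n, hn⟩ := habs g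
    refine ⟨n, fun v hv => ?_⟩
    obtain ⟨b, hb, h2⟩ := hn v hv
    rw [h2]
    exact ⟨PresentedGroup.of (⟨b, hb⟩ : N), tau_of f N hf hsec ⟨b, hb⟩⟩

end nuc

/-- the nucleus criterion in terms of permutations of words -/
theorem nucleus {C : ∀ (G : Type) [Group G], Prop} (hC : ClosedE C) {P : Subgroup (Equiv.Perm X)}
    (hP : C P) (G : Type) [Group G] (f : G →* Equiv.Perm (List X)) (hf : Function.Injective f)
    (hT : ∀ g, IsTree (f g)) (hL : ∀ g, LocIn P (f g)) (N : Set G) (hN : Absorbing f N)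
    (hCN : C (NucGroup N)) : C G := by
  let f' : G →* T X := f.codRestrict (T X) hT
  have hf' : Function.Injective f' := fun a b h => hf (congrArg Subtype.val h)
  have hsec : ∀ a ∈ N, ∀ x : X, ∃ b ∈ N, sec (f' a) x = f' b := by
    intro a ha x
    obtain ⟨b, hb, h1⟩ := hN.sec a ha x
    exact ⟨b, hb, sec_eq_of_isSec (g := f' a) (h := f' b) h1⟩
  have habs : ∀ g : G, ∃ n : ℕ, ∀ v : List X, v.length = n → ∃ b ∈ N, secW (f' g) v = f' b := by
    intro g
    obtain ⟨n, hn⟩ := hN.absorb g
    refine ⟨n, fun v hv => ?_⟩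
    obtain ⟨b, hb, h1⟩ := hn v hv
    exact ⟨b, hb, eq_of_isSec (g := f' g) (h := f' b) h1⟩
  exact c_nuc f' N hf' hC hP (fun g => mem_FP_of_locIn (g := f' g) (hL g)) hN.one hN.inv hsec habs
    hCN

/-- images of groups in `C` with a contracting recursion -/
theorem cover {C : ∀ (G : Type) [Group G], Prop} (hC : ClosedE C) {P : Subgroup (Equiv.Perm X)}
    (hP : C P) (Γ G : Type) [Group Γ] [Group G] (ψ : Γ →* Wr X Γ) (π : Γ →* G) (N : Set Γ)
    (hψ : ∀ γ, ψ γ ∈ RW P Γ) (habs : ∀ γ, ∃ n, ∀ v : List X, v.length = n → secG ψ γ v ∈ N)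
    (hdet : ∀ a ∈ N, (∀ w, act ψ a w = w) → a = 1) (hπ : Function.Surjective π)
    (hker : ∀ γ, π γ = 1 ↔ ∀ w, act ψ γ w = w) (hΓ : C Γ) : C G := by
  have htau : ∀ γ, tau ψ γ = 1 ↔ ∀ w, act ψ γ w = w := by
    intro γ
    constructor
    · intro h w
      exact congrFun (congrArg (fun g : T X => (g.1 : List X → List X)) h) w
    · intro h
      apply Subtype.ext
      apply Equiv.ext
      exact h
  have h1 := c_range hC hP ψ hψ hΓ N habs fun a ha h => hdet a ha ((htau a).1 h)
  have hk : π.ker = (tau ψ).ker := by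
    ext γ
    rw [MonoidHom.mem_ker, MonoidHom.mem_ker, hker, htau]
  let e1 : G ≃* Γ ⧸ π.ker := (QuotientGroup.quotientKerEquivOfSurjective π hπ).symm
  let e2 : Γ ⧸ π.ker ≃* Γ ⧸ (tau ψ).ker := QuotientGroup.quotientMulEquivOfEq hk
  exact Pool.Agent.Y812.SS.C_equiv hC.base
    ((e1.trans e2).trans (QuotientGroup.quotientKerEquivRange (tau ψ))) h1

end Pool.Agent.X265.Ctr
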